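import Pool.Agent.Helper37_CAP.Stmts

/-!
# Squad CAP, module MUA: the multiplier congruence in the group algebra over `ZMod p`
-/

set_option autoImplicit false

open Finset

namespace Pool.Agent.CAP.H97

section Alg

variable {G : Type} {p : ℕ}

theorem coef_sum [DecidableEq G] {ι : Type} (S : Finset ι) (f : ι → G) (g : G) :
    (∑ i ∈ S, AddMonoidAlgebra.single (f i) (1 : ZMod p) :
      AddMonoidAlgebra (ZMod p) G).coeff g =
      ((S.filter (fun i => f i = g)).card : ZMod p) := by
  rw [AddMonoidAlgebra.coeff_sum, Finsupp.finsetSum_apply, Finset.card_filter, Nat.cast_sum]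
  apply Finset.sum_congr rfl
  intro i _
  rw [AddMonoidAlgebra.coeff_single_apply]
  split_ifs <;> simp

theorem mul_sum [AddCommGroup G] {ι κ : Type} (S : Finset ι) (T : Finset κ) (f : ι → G) (f' : κ → G) :
    ((∑ i ∈ S, AddMonoidAlgebra.single (f i) (1 : ZMod p)) *
      (∑ j ∈ T, AddMonoidAlgebra.single (f' j) (1 : ZMod p)) : AddMonoidAlgebra (ZMod p) G) =
      ∑ q ∈ S ×ˢ T, AddMonoidAlgebra.single (f q.1 + f' q.2) (1 : ZMod p) := by
  rw [Finset.sum_mul_sum, Finset.sum_product]
  apply Finset.sum_congr rfl
  intro i _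
  apply Finset.sum_congr rfl
  intro j _
  rw [AddMonoidAlgebra.single_mul_single, one_mul]

theorem pow_sum [AddCommGroup G] [Fact p.Prime] {ι : Type} (S : Finset ι) (f : ι → G) :
    ((∑ i ∈ S, AddMonoidAlgebra.single (f i) (1 : ZMod p)) ^ p : AddMonoidAlgebra (ZMod p) G) =
      ∑ i ∈ S, AddMonoidAlgebra.single (p • f i) (1 : ZMod p) := by
  have : CharP (AddMonoidAlgebra (ZMod p) G) p := by
    have := charP_of_injective_algebraMap
      (algebraMap (ZMod p) (AddMonoidAlgebra (ZMod p) G)).injective p
    infer_instance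
  rw [sum_pow_char]
  apply Finset.sum_congr rfl
  intro i _
  rw [AddMonoidAlgebra.single_pow, one_pow]

end Alg

theorem mua (dse : DSE) : MUA := by
  classical
  intro k D hk hD h0 p hp hpk g
  have : NeZero (k * (k + 2)) := ⟨by positivity⟩
  have : Fact p.Prime := ⟨hp⟩
  have hn : ((k + 1 : ℕ) : ZMod p) = 0 := (ZMod.natCast_eq_zero_iff _ _).2 hpk
  have ext' : ∀ x y : AddMonoidAlgebra (ZMod p) (ZMod (k * (k + 2))), (∀ a, x.coeff a = y.coeff a) → x = y :=
    fun x y h => AddMonoidAlgebra.ext (Finsupp.ext h)
  set A : AddMonoidAlgebra (ZMod p) (ZMod (k * (k + 2))) := ∑ d ∈ D, AddMonoidAlgebra.single d (1 : ZMod p) with hA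
  set A' : AddMonoidAlgebra (ZMod p) (ZMod (k * (k + 2))) :=
    ∑ d ∈ D, AddMonoidAlgebra.single (-d) (1 : ZMod p) with hA'
  set U : AddMonoidAlgebra (ZMod p) (ZMod (k * (k + 2))) :=
    ∑ d ∈ (Finset.univ : Finset (ZMod (k * (k + 2)))).filter (fun d => pr k d ≠ 0),
      AddMonoidAlgebra.single d (1 : ZMod p) with hU
  have hUc : ∀ a, U.coeff a = if pr k a = 0 then 0 else 1 := by
    intro a
    rw [hU, coef_sum, Finset.filter_filter]
    by_cases ha : pr k a = 0
    · rw [if_pos ha]
      have : (Finset.univ : Finset (ZMod (k * (k + 2)))).filter (fun d => pr k d ≠ 0 ∧ d = a) = ∅ := by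
        apply Finset.filter_eq_empty_iff.2
        rintro d _ ⟨h1, rfl⟩
        exact h1 ha
      rw [this]; simp
    · rw [if_neg ha]
      have : (Finset.univ : Finset (ZMod (k * (k + 2)))).filter (fun d => pr k d ≠ 0 ∧ d = a) = {a} := by
        ext d
        simp only [mem_filter, mem_univ, true_and, mem_singleton]
        exact ⟨fun h => h.2, fun h => by rw [h]; exact ⟨ha, rfl⟩⟩
      rw [this]; simp
  -- (1) A * U = - U
  have h1 : A * U = -U := by
    apply ext'
    intro a
    have hneg : (-U).coeff a = -(U.coeff a) := rfl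
    rw [hneg, hUc a, hA, hU, mul_sum, coef_sum]
    -- the number of (d, g) with pr g ≠ 0 and d + g = a is the number of d with pr d ≠ pr a
    have hcard : (((D ×ˢ (Finset.univ : Finset (ZMod (k * (k + 2)))).filter (fun d => pr k d ≠ 0)).filter
        (fun q => q.1 + q.2 = a)).card) = (D.filter (fun d => pr k d ≠ pr k a)).card := by
      apply Finset.card_bij (fun q _ => q.1)
      · rintro ⟨d, x⟩ hq
        simp only [mem_filter, mem_product, mem_univ, true_and] at hq ⊢
        obtain ⟨⟨hd, hx⟩, rfl⟩ := hq
        refine ⟨hd, ?_⟩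
        rw [map_add]
        intro h
        apply hx
        have : pr k d + pr k x - pr k d = 0 := by rw [← h, sub_self]
        rw [add_sub_cancel_left] at this
        exact this
      · rintro ⟨d, x⟩ hq ⟨d', x'⟩ hq' h
        simp only [mem_filter, mem_product, mem_univ, true_and] at hq hq' h
        subst h
        have : x = x' := add_left_cancel (hq.2.trans hq'.2.symm)
        rw [this]
      · intro d hd
        rw [mem_filter] at hd
        refine ⟨(d, a - d), ?_, rfl⟩
        simp only [mem_filter, mem_product, mem_univ, true_and]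
        refine ⟨⟨hd.1, ?_⟩, by abel⟩
        rw [map_sub, sub_ne_zero]
        exact hd.2.symm
    rw [hcard]
    have hc2 : (D.filter (fun d => pr k d ≠ pr k a)).card +
        (D.filter (fun d => pr k d = pr k a)).card = k + 1 := by
      rw [← hD.card, add_comm]
      exact Finset.card_filter_add_card_filter_not (fun d => pr k d = pr k a)
    obtain ⟨c₀, hc₀⟩ := dse k D hk hD
    have hc : c₀ = 0 := by
      by_contra hne
      obtain ⟨d', hd', he⟩ := (hc₀ 0).2 (Ne.symm hne)
      exact h0 d' hd' he
    have hc3 : (D.filter (fun d => pr k d = pr k a)).card = if pr k a = 0 then 0 else 1 := by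
      by_cases ha : pr k a = 0
      · rw [if_pos ha, Finset.card_eq_zero, Finset.filter_eq_empty_iff]
        intro d hd
        rw [ha]
        exact h0 d hd
      · rw [if_neg ha, Finset.card_eq_one]
        obtain ⟨d', hd', he⟩ := (hc₀ (pr k a)).2 (by rw [hc]; exact ha)
        refine ⟨d', ?_⟩
        ext d
        simp only [mem_filter, mem_singleton]
        constructor
        · rintro ⟨hd, hda⟩
          exact hD.inj d hd d' hd' (hda.trans he.symm)
        · rintro rfl
          exact ⟨hd', he⟩
    have hc4 : (((D.filter (fun d => pr k d ≠ pr k a)).card : ℕ) : ZMod p) +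
        (((if pr k a = 0 then 0 else 1 : ℕ)) : ZMod p) = 0 := by
      rw [← hc3, ← Nat.cast_add, hc2, hn]
    rw [eq_neg_iff_add_eq_zero]
    split_ifs at hc4 ⊢ <;> simpa using hc4
  -- (2) A * A' = U
  have h2 : A * A' = U := by
    apply ext'
    intro a
    rw [hUc a, hA, hA', mul_sum, coef_sum]
    by_cases ha : pr k a = 0
    · rw [if_pos ha]
      by_cases ha0 : a = 0
      · have : ((D ×ˢ D).filter (fun q => q.1 + -q.2 = a)).card = D.card := by
          apply Finset.card_bij (fun q _ => q.1)
          · rintro ⟨d, d'⟩ hq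
            simp only [mem_filter, mem_product] at hq ⊢
            exact hq.1.1
          · rintro ⟨d, x⟩ hq ⟨d', x'⟩ hq' h
            simp only [mem_filter, mem_product] at hq hq' h
            subst h
            have : -x = -x' := add_left_cancel (hq.2.trans hq'.2.symm)
            rw [neg_injective this]
          · intro d hd
            refine ⟨(d, d), ?_, rfl⟩
            simp only [mem_filter, mem_product]
            refine ⟨⟨hd, hd⟩, by rw [ha0, add_neg_cancel]⟩
        rw [this, hD.card, hn]
      · have : (D ×ˢ D).filter (fun q => q.1 + -q.2 = a) = ∅ := by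
          apply Finset.filter_eq_empty_iff.2
          rintro ⟨d, d'⟩ hq h
          simp only [mem_product] at hq h
          rw [← h, map_add, map_neg, ← sub_eq_add_neg, sub_eq_zero] at ha
          have := hD.inj d hq.1 d' hq.2 ha
          apply ha0
          rw [← h, this, add_neg_cancel]
        rw [this]; simp
    · rw [if_neg ha]
      obtain ⟨d, hd, d', hd', he⟩ := hD.ex a ha
      have : (D ×ˢ D).filter (fun q => q.1 + -q.2 = a) = {(d, d')} := by
        ext ⟨x, y⟩
        simp only [mem_filter, mem_product, mem_singleton, Prod.mk.injEq]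
        constructor
        · rintro ⟨⟨hx, hy⟩, hxy⟩
          have hne : x ≠ y := by
            rintro rfl
            apply ha
            rw [← hxy, add_neg_cancel, map_zero]
          exact hD.uniq x hx y hy d hd d' hd' (by rw [he, ← hxy, sub_eq_add_neg]) hne
        · rintro ⟨rfl, rfl⟩
          exact ⟨⟨hd, hd'⟩, by rw [← sub_eq_add_neg]; exact he⟩
      rw [this]; simp
  -- A ^ (p - 1) * U = U
  have h3 : ∀ m : ℕ, A ^ m * U = (-1) ^ m * U := by
    intro m
    induction m with
    | zero => simp
    | succ m ih =>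
      rw [pow_succ, mul_assoc, h1, mul_neg, ih, pow_succ]
      ring
  have h4 : A ^ p * A' = U := by
    have hp1 : p = (p - 1) + 1 := by have := hp.two_le; omega
    have h5 : A ^ p * A' = A ^ (p - 1) * U := by
      have h6 : A ^ p = A ^ (p - 1) * A := by rw [← pow_succ]; exact congrArg (A ^ ·) hp1
      rw [h6, mul_assoc, h2]
    rw [h5, h3]
    have : CharP (AddMonoidAlgebra (ZMod p) (ZMod (k * (k + 2)))) p := by
      have := charP_of_injective_algebraMap
        (algebraMap (ZMod p) (AddMonoidAlgebra (ZMod p) (ZMod (k * (k + 2))))).injective p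
      infer_instance
    have h6 : ((-1 : AddMonoidAlgebra (ZMod p) (ZMod (k * (k + 2))))) ^ (p - 1) = 1 := by
      rcases hp.eq_two_or_odd' with h | h
      · subst h
        have h7 : (2 : AddMonoidAlgebra (ZMod 2) (ZMod (k * (k + 2)))) = 0 := by
          have := CharP.cast_eq_zero (AddMonoidAlgebra (ZMod 2) (ZMod (k * (k + 2)))) 2
          exact_mod_cast this
        have h8 : (-1 : AddMonoidAlgebra (ZMod 2) (ZMod (k * (k + 2)))) = 1 := by
          have : (-1 : AddMonoidAlgebra (ZMod 2) (ZMod (k * (k + 2)))) = 1 - 2 := by ring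
          rw [this, h7, sub_zero]
        rw [h8, one_pow]
      · obtain ⟨m, hm⟩ := h
        have : p - 1 = 2 * m := by omega
        rw [this, pow_mul]
        norm_num
    rw [h6, one_mul]
  have h9 := congrArg (fun x : AddMonoidAlgebra (ZMod p) (ZMod (k * (k + 2))) => x.coeff g) h4
  rw [hUc g, hA, hA', pow_sum, mul_sum, coef_sum] at h9
  rw [← h9]
  congr 2
  apply Finset.filter_congr
  rintro ⟨a, b⟩ _
  rw [nsmul_eq_mul, sub_eq_add_neg]

end Pool.Agent.CAP.H97
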